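import Pool.Agent.Lib.MP_5e7226_co.C8.SY7.DQS7
import Pool.Agent.Lib.MP_5e7226_co.C8.T7S.D012

set_option autoImplicit false
set_option maxRecDepth 100000
set_option linter.all false

namespace Pool.Agent.Lib.MP_5e7226_co.C8.SY7

open SY

/-- the root of the tree -/
theorem root7 : RootS Q7 1024 [] [] :=
  SY7.root_of_gs (K := TSY7.s102.K) (F := TSY7.s102.F) (SD7.Ds.gs TSY7.g102) (by decide +kernel)
    (by decide +kernel)

/-- symmetric bodies in the three-dimensional space -/
theorem illum7s (S : Set GB.E) (hc : Convex ℝ S) (hk : IsCompact S) (hi : (interior S).Nonempty)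
    (hs : ∀ x ∈ S, -x ∈ S) : Illum S 7 ∨ L7.IsPar S :=
  illum7_of_root root7 S hc hk hi hs

end Pool.Agent.Lib.MP_5e7226_co.C8.SY7
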